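import Pool.Agent.helper55.NK.Spec

/-!
# Project NK, row TAL (second prover)

The binomial coefficients `C(n, s)`, `s ≤ t - 2`, are summed like a geometric series of ratio `1/9`.
-/

set_option autoImplicit false

namespace Pool.Agent.helper58.NK

open Pool.Agent.NK Finset

theorem TAL_aux (hGEO : GEO_stmt) (n m : ℕ) (h : 10 * m ≤ n) :
    8 * ∑ s ∈ range (m + 1), n.choose s ≤ 9 * n.choose m := by
  induction m with
  | zero => simp
  | succ m ih =>
    have h1 := ih (by omega)
    have h2 := hGEO n m (m + 1) (by omega) h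
    rw [show m + 1 - m = 1 by omega, pow_one] at h2
    rw [Finset.sum_range_succ, Nat.mul_add]
    omega

theorem TAL (hGEO : GEO_stmt) : TAL_stmt := by
  intro n t D hn hD hinj
  rcases D.eq_empty_or_nonempty with rfl | ⟨c₀, hc₀⟩
  · simp
  · have ht : 2 ≤ t := by have := hD c₀ hc₀; omega
    obtain ⟨m, rfl⟩ := Nat.exists_eq_add_of_le' ht
    have h1 : ∑ c ∈ D, n.choose (c.1 + c.2) = ∑ s ∈ D.image (fun c => c.1 + c.2), n.choose s := by
      rw [Finset.sum_image]
      intro c hc d hd hcd
      exact hinj c hc d hd hcd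
    have h2 : ∑ s ∈ D.image (fun c => c.1 + c.2), n.choose s ≤ ∑ s ∈ range (m + 1), n.choose s := by
      apply Finset.sum_le_sum_of_subset
      intro s hs
      obtain ⟨c, hc, rfl⟩ := Finset.mem_image.1 hs
      have := hD c hc
      rw [Finset.mem_range]
      omega
    have h3 := TAL_aux hGEO n m (by omega)
    have h4 := hGEO n m (m + 2) (by omega) hn
    rw [show m + 2 - m = 2 by omega] at h4
    rw [h1]
    omega

end Pool.Agent.helper58.NK
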